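import Pool.Agent.H19.GC.NV

/-!
# GC modules NP, NW: pairs and words with many defects
-/

set_option autoImplicit false

open Finset Pool.Agent.H23.GW Pool.Agent.H23.GC
open scoped Classical Nat

namespace Pool.Agent.H19.GC

open Pool.Agent.H2.GC (mem_Vn nrm_neg nrm_zero nrm_triangle)

variable {ι : Type} [Fintype ι]

theorem ell_sub_le (c d : ι → ℤ) : ell (c - d) ≤ ell c + ell d := by
  unfold ell
  refine (card_le_card (t := ({i | c i ≠ 0} : Finset ι) ∪ ({i | d i ≠ 0} : Finset ι)) fun i hi => ?_).trans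
    (card_union_le _ _)
  simp only [mem_filter, mem_univ, true_and, mem_union] at hi ⊢
  by_contra h
  push Not at h
  refine hi ?_
  rw [Pi.sub_apply, h.1, h.2, sub_zero]

theorem abs_le_of_conformal {c d : ι → ℤ} (h : nrm (c - d) = nrm c + nrm d) (i : ι) :
    (c i).natAbs ≤ ((c - d) i).natAbs := by
  have h1 : ∑ i, ((c - d) i).natAbs = ∑ i, ((c i).natAbs + (d i).natAbs) := by
    rw [sum_add_distrib]
    exact h
  have h2 : ∀ i ∈ (univ : Finset ι), ((c - d) i).natAbs ≤ (c i).natAbs + (d i).natAbs := by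
    intro i _
    rw [Pi.sub_apply]
    omega
  have h3 := (sum_eq_sum_iff_of_le h2).1 h1 i (mem_univ _)
  omega

theorem two_mul_add_one_le (n : ℕ) : 2 * n + 1 ≤ 3 ^ n := by
  induction n with
  | zero => simp
  | succ n ih =>
    rw [pow_succ]
    omega

theorem pair_fiber (n : ℕ) (S : Finset ((ι → ℤ) × (ι → ℤ))) (v : ι → ℤ) (hv : nrm v = n)
    (h : ∀ q ∈ S, nrm (q.1 - q.2) = nrm q.1 + nrm q.2) :
    #{q ∈ S | q.1 - q.2 = v} ≤ 3 ^ n := by
  have h1 : #{q ∈ S | q.1 - q.2 = v} ≤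
      #(Fintype.piFinset fun i => Icc (-((v i).natAbs : ℤ)) (v i).natAbs) := by
    refine card_le_card_of_injOn (fun q => q.1) ?_ ?_
    · intro q hq
      simp only [coe_filter, Set.mem_ofPred_eq] at hq
      rw [mem_coe, Fintype.mem_piFinset]
      intro i
      have := abs_le_of_conformal (h q hq.1) i
      rw [hq.2] at this
      show q.1 i ∈ _
      rw [mem_Icc]
      omega
    · intro q hq q' hq' he
      simp only [coe_filter, Set.mem_ofPred_eq] at hq hq'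
      have he' : q.1 = q'.1 := he
      have h2 : q.2 = q'.2 := by
        have h3 := hq.2
        rw [← hq'.2, he'] at h3
        exact sub_right_injective h3
      exact Prod.ext he' h2
  refine h1.trans ?_
  rw [Fintype.card_piFinset, ← hv]
  unfold nrm
  rw [← prod_pow_eq_pow_sum]
  refine prod_le_prod' fun i _ => ?_
  rw [Int.card_Icc]
  have := two_mul_add_one_le (v i).natAbs
  omega

theorem pair_count (n : ℕ) (S : Finset ((ι → ℤ) × (ι → ℤ))) (T : Finset (ι → ℤ))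
    (hT : ∀ v ∈ T, nrm v = n) (hST : ∀ q ∈ S, q.1 - q.2 ∈ T)
    (h : ∀ q ∈ S, nrm (q.1 - q.2) = nrm q.1 + nrm q.2) : #S ≤ 3 ^ n * #T :=
  card_le_mul_card_image_of_maps_to (f := fun q : (ι → ℤ) × (ι → ℤ) => q.1 - q.2) hST _
    fun v hv => pair_fiber n S v (hT v hv) h

/-- module NP -/
theorem np (hNV : T_NV) (hL : T_L) : T_NP := by
  intro s hs
  obtain ⟨C, hC⟩ := hNV s hs
  refine ⟨3 ^ (2 * s + 2) * |C|, ?_⟩
  intro ι _ G _ ev hPC hm
  obtain ⟨h1, h2⟩ := hC ι G ev hPC hm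
  obtain ⟨hk, hd⟩ := hL ι G s ev hPC
  have hM : (0 : ℝ) ≤ (Fintype.card ι : ℝ) ^ (s - 2) := by positivity
  constructor
  · set T : Finset (ι → ℤ) := {v ∈ Vn ι (2 * s + 2) | ev v = 0 ∧ ell v + 4 ≤ 2 * s + 2} with hT
    have h3 : #{q ∈ Vn ι (s + 1) ×ˢ Vn ι (s + 1) | ev q.1 = ev q.2 ∧ q.1 ≠ q.2 ∧
        ell q.1 + ell q.2 + 4 ≤ 2 * s + 2} ≤ 3 ^ (2 * s + 2) * #T := by
      have key : ∀ q ∈ {q ∈ Vn ι (s + 1) ×ˢ Vn ι (s + 1) | ev q.1 = ev q.2 ∧ q.1 ≠ q.2 ∧
          ell q.1 + ell q.2 + 4 ≤ 2 * s + 2}, nrm q.1 = s + 1 ∧ nrm q.2 = s + 1 ∧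
          nrm (q.1 - q.2) = 2 * s + 2 ∧ ev (q.1 - q.2) = 0 ∧ ell (q.1 - q.2) + 4 ≤ 2 * s + 2 := by
        intro q hq
        simp only [mem_filter, mem_product, mem_Vn] at hq
        obtain ⟨⟨a1, a2⟩, a3, a4, a5⟩ := hq
        obtain ⟨b1, b2, b3⟩ := hd q.1 q.2 a4 a3
        rw [a1, a2] at b2 b3
        obtain ⟨e, he⟩ := b3
        refine ⟨a1, a2, by omega, by rw [map_sub, a3, sub_self], ?_⟩
        have := ell_sub_le q.1 q.2
        omega
      refine pair_count (2 * s + 2) _ T (fun v hv => ?_) (fun q hq => ?_) (fun q hq => ?_)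
      · rw [hT, mem_filter, mem_Vn] at hv
        exact hv.1
      · obtain ⟨-, -, b3, b4, b5⟩ := key q hq
        rw [hT, mem_filter, mem_Vn]
        exact ⟨b3, b4, b5⟩
      · obtain ⟨b1, b2, b3, -, -⟩ := key q hq
        omega
    calc (#{q ∈ Vn ι (s + 1) ×ˢ Vn ι (s + 1) | ev q.1 = ev q.2 ∧ q.1 ≠ q.2 ∧
        ell q.1 + ell q.2 + 4 ≤ 2 * s + 2} : ℝ) ≤ 3 ^ (2 * s + 2) * (#T : ℝ) := by exact_mod_cast h3
      _ ≤ 3 ^ (2 * s + 2) * (|C| * (Fintype.card ι : ℝ) ^ (s - 2)) := by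
          refine mul_le_mul_of_nonneg_left ?_ (by positivity)
          exact h1.trans (mul_le_mul_of_nonneg_right (le_abs_self _) hM)
      _ = _ := by ring
  · set T : Finset (ι → ℤ) := {v ∈ Vn ι (2 * s + 1) | ev v = 0 ∧ ell v + 3 ≤ 2 * s + 1} with hT
    have h3 : #{q ∈ Vn ι s ×ˢ Vn ι (s + 1) | ev q.1 = ev q.2 ∧
        ell q.1 + ell q.2 + 3 ≤ 2 * s + 1} ≤ 3 ^ (2 * s + 1) * #T := by
      have key : ∀ q ∈ {q ∈ Vn ι s ×ˢ Vn ι (s + 1) | ev q.1 = ev q.2 ∧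
          ell q.1 + ell q.2 + 3 ≤ 2 * s + 1}, nrm q.1 = s ∧ nrm q.2 = s + 1 ∧
          nrm (q.1 - q.2) = 2 * s + 1 ∧ ev (q.1 - q.2) = 0 ∧ ell (q.1 - q.2) + 3 ≤ 2 * s + 1 := by
        intro q hq
        simp only [mem_filter, mem_product, mem_Vn] at hq
        obtain ⟨⟨a1, a2⟩, a3, a5⟩ := hq
        have hne : q.1 ≠ q.2 := by
          intro h
          rw [h] at a1
          omega
        obtain ⟨b1, b2, b3⟩ := hd q.1 q.2 hne a3
        rw [a1, a2] at b2 b3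
        refine ⟨a1, a2, by omega, by rw [map_sub, a3, sub_self], ?_⟩
        have := ell_sub_le q.1 q.2
        omega
      refine pair_count (2 * s + 1) _ T (fun v hv => ?_) (fun q hq => ?_) (fun q hq => ?_)
      · rw [hT, mem_filter, mem_Vn] at hv
        exact hv.1
      · obtain ⟨-, -, b3, b4, b5⟩ := key q hq
        rw [hT, mem_filter, mem_Vn]
        exact ⟨b3, b4, b5⟩
      · obtain ⟨b1, b2, b3, -, -⟩ := key q hq
        omega
    calc (#{q ∈ Vn ι s ×ˢ Vn ι (s + 1) | ev q.1 = ev q.2 ∧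
        ell q.1 + ell q.2 + 3 ≤ 2 * s + 1} : ℝ) ≤ 3 ^ (2 * s + 1) * (#T : ℝ) := by exact_mod_cast h3
      _ ≤ 3 ^ (2 * s + 2) * (#T : ℝ) := by
          refine mul_le_mul_of_nonneg_right ?_ (by positivity)
          exact pow_le_pow_right₀ (by norm_num) (by omega)
      _ ≤ 3 ^ (2 * s + 2) * (|C| * (Fintype.card ι : ℝ) ^ (s - 2)) := by
          refine mul_le_mul_of_nonneg_left ?_ (by positivity)
          exact h2.trans (mul_le_mul_of_nonneg_right (le_abs_self _) hM)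
      _ = _ := by ring

/-- module NW -/
theorem nw (hNV : T_NV) (hW : T_W) : T_NW := by
  intro s hs
  obtain ⟨C, hC⟩ := hNV s hs
  refine ⟨(2 * s + 2)! * |C|, ?_⟩
  intro ι _ G _ ev hPC hm κ _
  obtain ⟨h1, h2⟩ := hC ι G ev hPC hm
  have hM : (0 : ℝ) ≤ (Fintype.card ι : ℝ) ^ (s - 2) := by positivity
  have hfib : ∀ (Q : ℕ → Prop) [DecidablePred Q] (T : Finset (ι → ℤ)), (∀ v, v ∈ T ↔
      nrm v = Fintype.card κ ∧ ev v = 0 ∧ Q (ell v)) →
      #{z ∈ Zr ev κ | Q (ell (vs z))} ≤ (Fintype.card κ)! * #T := by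
    intro Q _ T hT
    refine card_le_mul_card_image_of_maps_to (f := fun z : κ → ι × Bool => vs z) ?_ _ ?_
    · intro z hz
      simp only [mem_filter, Zr, mem_univ, true_and] at hz
      rw [hT]
      exact ⟨hz.1.1, hz.1.2, hz.2⟩
    · intro v hv
      rw [hT] at hv
      refine le_trans (card_le_card fun z hz => ?_) ((hW ι κ).2 v hv.1).2.1
      simp only [mem_filter, mem_univ, true_and] at hz ⊢
      exact hz.2
  constructor
  · intro hκ
    have h3 := hfib (fun n => n + 4 ≤ 2 * s + 2)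
      {v ∈ Vn ι (2 * s + 2) | ev v = 0 ∧ ell v + 4 ≤ 2 * s + 2}
      (fun v => by rw [mem_filter, mem_Vn, hκ])
    rw [hκ] at h3
    calc (#{z ∈ Zr ev κ | ell (vs z) + 4 ≤ 2 * s + 2} : ℝ)
        ≤ (2 * s + 2)! * (#{v ∈ Vn ι (2 * s + 2) | ev v = 0 ∧ ell v + 4 ≤ 2 * s + 2} : ℝ) := by
          exact_mod_cast h3
      _ ≤ (2 * s + 2)! * (|C| * (Fintype.card ι : ℝ) ^ (s - 2)) := by
          refine mul_le_mul_of_nonneg_left ?_ (by positivity)
          exact h1.trans (mul_le_mul_of_nonneg_right (le_abs_self _) hM)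
      _ = _ := by ring
  · intro hκ
    have h3 := hfib (fun n => n + 3 ≤ 2 * s + 1)
      {v ∈ Vn ι (2 * s + 1) | ev v = 0 ∧ ell v + 3 ≤ 2 * s + 1}
      (fun v => by rw [mem_filter, mem_Vn, hκ])
    rw [hκ] at h3
    calc (#{z ∈ Zr ev κ | ell (vs z) + 3 ≤ 2 * s + 1} : ℝ)
        ≤ (2 * s + 1)! * (#{v ∈ Vn ι (2 * s + 1) | ev v = 0 ∧ ell v + 3 ≤ 2 * s + 1} : ℝ) := by
          exact_mod_cast h3
      _ ≤ (2 * s + 2)! * (|C| * (Fintype.card ι : ℝ) ^ (s - 2)) := by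
          refine mul_le_mul ?_ (h2.trans (mul_le_mul_of_nonneg_right (le_abs_self _) hM))
            (by positivity) (by positivity)
          exact_mod_cast Nat.factorial_le (by omega)
      _ = _ := by ring

end Pool.Agent.H19.GC
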