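import Pool.Agent.H23.GC.Targets2
import Pool.Agent.H2.GC.Base

/-!
# GC module NV: kernel vectors with many defects
-/

set_option autoImplicit false

open Finset Pool.Agent.H23.GW Pool.Agent.H23.GC
open scoped Classical Nat

namespace Pool.Agent.H19.GC

open Pool.Agent.H2.GC (mem_Vn occ nrm_sub_occ nrm_sub_not_occ exists_occ nrm_neg nrm_zero
  nrm_triangle dv_self sg_eq sg)

variable {ι : Type} [Fintype ι]

theorem nrm_dv (x : ι × Bool) : nrm (dv x) = 1 := by
  have h : ¬ occ x (0 : ι → ℤ) := by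
    unfold occ
    simp
  have h1 := nrm_sub_not_occ h
  rw [zero_sub, nrm_neg, nrm_zero] at h1
  exact h1

omit [Fintype ι] in
theorem sub_dv_ne {c : ι → ℤ} {x : ι × Bool} {j : ι} (h : j ≠ x.1) : (c - dv x) j = c j := by
  rw [Pi.sub_apply]
  unfold dv
  rw [Pi.single_eq_of_ne h, sub_zero]

omit [Fintype ι] in
theorem occ_ne {c : ι → ℤ} {x : ι × Bool} (h : occ x c) : c x.1 ≠ 0 := by
  intro h0
  unfold occ at h
  rw [h0, mul_zero] at h
  exact lt_irrefl _ h

theorem ell_sub_occ_le {c : ι → ℤ} {x : ι × Bool} (h : occ x c) : ell (c - dv x) ≤ ell c := by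
  unfold ell
  refine card_le_card fun j hj => ?_
  rw [mem_filter] at hj ⊢
  refine ⟨mem_univ _, ?_⟩
  by_cases hjx : j = x.1
  · rw [hjx]
    exact occ_ne h
  · rw [← sub_dv_ne hjx (c := c)]
    exact hj.2

theorem ell_sub_occ_one {c : ι → ℤ} {x : ι × Bool} (h : occ x c) (h1 : (c x.1).natAbs = 1) :
    ell (c - dv x) + 1 ≤ ell c := by
  have h0 : (c - dv x) x.1 = 0 := by
    rw [Pi.sub_apply, dv_self]
    unfold occ at h
    rcases sg_eq x.2 with h2 | h2 <;> rw [h2] at h ⊢ <;> omega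
  unfold ell
  have hlt : #{j | (c - dv x) j ≠ 0} < #{j | c j ≠ 0} := by
    refine card_lt_card ?_
    rw [ssubset_iff_of_subset]
    · refine ⟨x.1, ?_, ?_⟩
      · rw [mem_filter]
        exact ⟨mem_univ _, occ_ne h⟩
      · rw [mem_filter]
        exact fun hh => hh.2 h0
    · intro j hj
      rw [mem_filter] at hj ⊢
      refine ⟨mem_univ _, ?_⟩
      by_cases hjx : j = x.1
      · rw [hjx]
        exact occ_ne h
      · rw [← sub_dv_ne hjx (c := c)]
        exact hj.2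
  omega

theorem two_ell_le {c : ι → ℤ} (h : ∀ i, (c i).natAbs ≠ 1) : 2 * ell c ≤ nrm c := by
  unfold ell nrm
  rw [card_filter, mul_sum]
  refine sum_le_sum fun i _ => ?_
  have := h i
  split_ifs with h1 <;> omega

/-- removing one unit while keeping `k` defects -/
theorem exists_step {c : ι → ℤ} {k : ℕ} (h1 : 2 * k + 1 ≤ nrm c) (h2 : ell c + k ≤ nrm c) :
    ∃ x : ι × Bool, occ x c ∧ ell (c - dv x) + k ≤ nrm (c - dv x) := by
  by_cases h : ∀ i, (c i).natAbs ≠ 1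
  · obtain ⟨x, hx⟩ := exists_occ (c := c) (by omega)
    refine ⟨x, hx, ?_⟩
    have h3 := nrm_sub_occ hx
    have h4 := ell_sub_occ_le hx
    have h5 := two_ell_le h
    omega
  · push Not at h
    obtain ⟨i, hi⟩ := h
    obtain ⟨x, hx1, hx⟩ : ∃ x : ι × Bool, x.1 = i ∧ occ x c := by
      by_cases hp : 0 < c i
      · refine ⟨(i, true), rfl, ?_⟩
        unfold occ sg
        simpa using hp
      · refine ⟨(i, false), rfl, ?_⟩
        unfold occ sg
        simp only [Bool.false_eq_true, if_false]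
        omega
    refine ⟨x, hx, ?_⟩
    have h3 := nrm_sub_occ hx
    have h4 := ell_sub_occ_one hx (by rw [hx1]; exact hi)
    omega

/-- a sub-vector with the same number of defects -/
theorem exists_sub {k t : ℕ} (hkt : 2 * k ≤ t) (q : ℕ) : ∀ v : ι → ℤ, nrm v = t + q →
    ell v + k ≤ nrm v → ∃ a b : ι → ℤ, v = a + b ∧ nrm a = t ∧ ell a + k ≤ t ∧ nrm b ≤ q := by
  induction q with
  | zero =>
    intro v h h'
    exact ⟨v, 0, by simp, h, by omega, by rw [nrm_zero]⟩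
  | succ q ih =>
    intro v h h'
    obtain ⟨x, hx, hx'⟩ := exists_step (k := k) (by omega) h'
    have h1 := nrm_sub_occ hx
    obtain ⟨a, b, h2, h3, h4, h5⟩ := ih (v - dv x) (by omega) hx'
    refine ⟨a, b + dv x, ?_, h3, h4, ?_⟩
    · rw [← add_assoc, ← h2, sub_add_cancel]
    · have h6 := nrm_triangle b (dv x)
      rw [nrm_dv] at h6
      omega

theorem nv_aux {G : Type} [AddCommGroup G] {s : ℕ} {ev : (ι → ℤ) →+ G} (hPC : PC s ev)
    {k t : ℕ} (hkt : 2 * k ≤ t) :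
    #{v ∈ Vn ι (t + s) | ev v = 0 ∧ ell v + k ≤ t + s} ≤ #{a ∈ Vn ι t | ell a ≤ t - k} := by
  choose r hr using fun a : ι → ℤ => (hPC (ev a)).exists
  refine (card_le_card (t := ({a ∈ Vn ι t | ell a ≤ t - k}).image fun a => a - r a) ?_).trans
    card_image_le
  intro v hv
  simp only [mem_filter, mem_Vn] at hv
  obtain ⟨hn, he, hd⟩ := hv
  obtain ⟨a, b, h1, h2, h3, h4⟩ := exists_sub hkt s v hn (by omega)
  rw [mem_image]
  refine ⟨a, ?_, ?_⟩
  · simp only [mem_filter, mem_Vn]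
    exact ⟨h2, by omega⟩
  · have h5 : r a = -b := by
      refine (hPC (ev a)).unique ⟨(hr a).1, (hr a).2⟩ ⟨by rw [nrm_neg]; exact h4, ?_⟩
      rw [h1, map_add] at he
      rw [map_neg]
      exact (eq_neg_of_add_eq_zero_left he).symm
    rw [h5, h1, sub_neg_eq_add]

/-- module NV -/
theorem nv (hC : T_C) : T_NV := by
  intro s hs
  obtain ⟨C1, hC1⟩ := hC.2.2 (s + 2) (s - 2)
  obtain ⟨C2, hC2⟩ := hC.2.2 (s + 1) (s - 2)
  refine ⟨max C1 C2, ?_⟩
  intro ι _ G _ ev hPC hm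
  have hM : (0 : ℝ) ≤ (Fintype.card ι : ℝ) ^ (s - 2) := by positivity
  constructor
  · have h := nv_aux hPC (k := 4) (t := s + 2) (by omega)
    have h' : #{v ∈ Vn ι (2 * s + 2) | ev v = 0 ∧ ell v + 4 ≤ 2 * s + 2} ≤
        #{a ∈ Vn ι (s + 2) | ell a ≤ s - 2} := by
      have e1 : s + 2 + s = 2 * s + 2 := by ring
      have e2 : s + 2 - 4 = s - 2 := by omega
      rw [e1, e2] at h
      exact h
    calc (#{v ∈ Vn ι (2 * s + 2) | ev v = 0 ∧ ell v + 4 ≤ 2 * s + 2} : ℝ)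
        ≤ (#{a ∈ Vn ι (s + 2) | ell a ≤ s - 2} : ℝ) := by exact_mod_cast h'
      _ ≤ C1 * (Fintype.card ι : ℝ) ^ (s - 2) := hC1 ι hm
      _ ≤ _ := mul_le_mul_of_nonneg_right (le_max_left _ _) hM
  · have h := nv_aux hPC (k := 3) (t := s + 1) (by omega)
    have h' : #{v ∈ Vn ι (2 * s + 1) | ev v = 0 ∧ ell v + 3 ≤ 2 * s + 1} ≤
        #{a ∈ Vn ι (s + 1) | ell a ≤ s - 2} := by
      have e1 : s + 1 + s = 2 * s + 1 := by ring
      have e2 : s + 1 - 3 = s - 2 := by omega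
      rw [e1, e2] at h
      exact h
    calc (#{v ∈ Vn ι (2 * s + 1) | ev v = 0 ∧ ell v + 3 ≤ 2 * s + 1} : ℝ)
        ≤ (#{a ∈ Vn ι (s + 1) | ell a ≤ s - 2} : ℝ) := by exact_mod_cast h'
      _ ≤ C2 * (Fintype.card ι : ℝ) ^ (s - 2) := hC2 ι hm
      _ ≤ _ := mul_le_mul_of_nonneg_right (le_max_right _ _) hM

end Pool.Agent.H19.GC
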