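import Pool.Agent.H27.GC.Targets

/-! VAL: the values of the forms are small. -/

set_option autoImplicit false

open Polynomial Finset Pool.Agent.H27.GC

namespace Pool.Agent.H19.GC

theorem pf_VAL (h1 : T_GID) (h2 : T_VAN) (h3 : T_SCH) (h4 : T_RRB) : T_VAL := by
  intro s D
  refine ⟨max 4 (2 * MM s D), le_trans (by norm_num) (le_max_left _ _), ?_⟩
  set c : ℕ := max 4 (2 * MM s D) with hc
  intro m N B T b A a hB hBN hb hDeg ha hcoef hX i
  have hN : 0 < N := by omega
  have hNr : (0 : ℝ) < N := by exact_mod_cast hN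
  have hBr : (0 : ℝ) < B := by exact_mod_cast hB
  have hBNr : 4 * (B : ℝ) < N := by exact_mod_cast hBN
  have hslit : ∀ k, 1 + b k * (1 / N) ∈ Complex.slitPlane := by
    intro k
    apply Complex.mem_slitPlane_of_norm_lt_one
    rw [norm_mul, norm_div, norm_one, Complex.norm_natCast, mul_one_div, div_lt_one hNr]
    have := hb k
    linarith
  have hid := h1 s D b (1 / N) A hslit i
  simp only [mul_one_div] at hid
  rw [hid]
  obtain ⟨hdiff, hbd⟩ := h4 s D m B b A a hB hb hDeg ha hcoef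
  have hvan := h2 s D T b A hX
  have hz : 2 * (1 / (N : ℝ)) < 1 / (2 * B) := by
    rw [lt_div_iff₀ (by positivity)]
    calc 2 * (1 / (N : ℝ)) * (2 * B) = 4 * B / N := by ring
      _ < 1 := (div_lt_one hNr).2 hBNr
  have hs := h3 (RR b D A) (1 / (2 * B)) (MM s D * ((m + 1) * a)) (1 / N) T i
    (by positivity) (by positivity) hz hdiff hbd hvan
  have hcast : (1 / N : ℂ) = ((1 / (N : ℝ) : ℝ) : ℂ) := by push_cast; ring
  rw [hcast]
  refine hs.trans ?_
  have e1 : 2 * (1 / (N : ℝ)) / (1 / (2 * B)) = 4 * B / N := by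
    field_simp
    ring
  have e2 : ∀ x : ℝ, x / (1 / (N : ℝ)) ^ i = x * N ^ i := by
    intro x
    rw [one_div, inv_pow, div_inv_eq_mul]
  rw [e1, e2]
  have hc4 : (4 : ℝ) ≤ c := by exact_mod_cast le_max_left 4 (2 * MM s D)
  have hcM : MM s D * (m + 1) ≤ c ^ (m + 1) := by
    have h5 : 2 * MM s D ≤ c := le_max_right _ _
    have h6 : m + 1 ≤ 2 ^ (m + 1) := (Nat.lt_two_pow_self (n := m + 1)).le
    have h7 : MM s D ≤ MM s D ^ (m + 1) := Nat.le_self_pow (by omega) _
    calc MM s D * (m + 1) ≤ MM s D ^ (m + 1) * 2 ^ (m + 1) := Nat.mul_le_mul h7 h6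
      _ = (2 * MM s D) ^ (m + 1) := by rw [mul_pow]; ring
      _ ≤ c ^ (m + 1) := Nat.pow_le_pow_left h5 _
  have hcM' : (MM s D : ℝ) * (m + 1) ≤ (c : ℝ) ^ (m + 1) := by exact_mod_cast hcM
  have hT : (4 * (B : ℝ) / N) ^ T ≤ (c * B / N) ^ T := by
    refine pow_le_pow_left₀ (by positivity) ?_ T
    exact div_le_div_of_nonneg_right (mul_le_mul_of_nonneg_right hc4 hBr.le) hNr.le
  refine mul_le_mul_of_nonneg_right ?_ (by positivity)
  refine mul_le_mul ?_ hT (by positivity) (by positivity)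
  calc (MM s D : ℝ) * ((m + 1) * a) = (MM s D : ℝ) * (m + 1) * a := by ring
    _ ≤ (c : ℝ) ^ (m + 1) * a := mul_le_mul_of_nonneg_right hcM' ha

end Pool.Agent.H19.GC
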