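import Pool.Agent.H23.GC.Targets2
import Pool.Agent.H59.GC.Z

/-!
# GC module ZL: lower bounds for words with coincidences
-/

set_option autoImplicit false
set_option linter.unusedSectionVars false

open Finset Pool.Agent.H23.GW Pool.Agent.H23.GC
open scoped Classical Nat

namespace Pool.Agent.H19.GC

open Pool.Agent.H2.GC (nrm_neg nrm_zero nrm_triangle)
open Pool.Agent.H59.GC (vs_split vs_sum vs_apply nonreduced opp opp_ne card_det ext_bound
  ell_neg ell_le_nrm nrm_vs_le cnt)

variable {ι : Type} [Fintype ι] {κ : Type} [Fintype κ]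

/-! ### Retraction patterns -/

theorem card_ret_ge {D : Type} [Fintype D] (ρ : κ → κ) (hρ : ∀ c, ρ (ρ c) = ρ c) (T : Finset κ)
    (hT : ∀ c, c ∈ T ↔ ρ c ≠ c) :
    Fintype.card D ^ (Fintype.card κ - #T) ≤
      #(univ.filter fun w : κ → D => ∀ c, w c = w (ρ c)) := by
  have hn : ∀ c, ρ c ∉ T := fun c h => (hT _).1 h (hρ c)
  have h1 : #(univ : Finset ({a // a ∉ T} → D)) ≤
      #(univ.filter fun w : κ → D => ∀ c, w c = w (ρ c)) := by
    refine card_le_card_of_injOn (fun v => fun a : κ => v ⟨ρ a, hn a⟩) ?_ ?_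
    · intro v _
      simp only [coe_filter, mem_univ, true_and, Set.mem_ofPred_eq]
      intro c
      congr 1
      exact Subtype.ext (hρ c).symm
    · intro v _ v' _ hvv
      ext1 a
      have h2 := congrFun hvv a.1
      have h3 : ρ a.1 = a.1 := by
        by_contra h
        exact a.2 ((hT _).2 h)
      have h4 : (⟨ρ a.1, hn a.1⟩ : {a // a ∉ T}) = a := Subtype.ext h3
      simp only [h4] at h2
      exact h2
  refine le_trans (le_of_eq ?_) h1
  rw [card_univ, Fintype.card_fun, Fintype.card_subtype_compl, Fintype.card_coe]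

theorem card_nonred_ret (ρ : κ → κ) (hρ : ∀ c, ρ (ρ c) = ρ c) (T : Finset κ)
    (hT : ∀ c, c ∈ T ↔ ρ c ≠ c) :
    #(univ.filter fun w : κ → ι × Bool => (∀ c, w c = w (ρ c)) ∧ nrm (vs w) ≠ Fintype.card κ) ≤
      (Fintype.card κ) ^ 2 * Fintype.card (ι × Bool) ^ (Fintype.card κ - (#T + 1)) := by
  have hn : ∀ c, ρ c ∉ T := fun c h => (hT _).1 h (hρ c)
  have hone : ∀ a b : κ, #(univ.filter fun w : κ → ι × Bool =>
      (∀ c, w c = w (ρ c)) ∧ w a = opp (w b)) ≤
      Fintype.card (ι × Bool) ^ (Fintype.card κ - (#T + 1)) := by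
    intro a b
    by_cases hab : ρ a = ρ b
    · refine le_trans (le_of_eq ?_) (Nat.zero_le _)
      rw [card_eq_zero, filter_eq_empty_iff]
      rintro w _ ⟨h1, h3⟩
      rw [h1 a, hab, ← h1 b] at h3
      exact opp_ne _ h3
    · have hTc : #(insert (ρ a) T) = #T + 1 := card_insert_of_notMem (hn a)
      rw [← hTc]
      refine card_det _ _ ?_
      intro w hw1 w' hw2 hagree
      simp only [mem_filter, mem_univ, true_and] at hw1 hw2
      obtain ⟨h1, h3⟩ := hw1
      obtain ⟨h1', h3'⟩ := hw2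
      have hb : w (ρ b) = w' (ρ b) := hagree _ (by
        simp only [mem_insert, not_or]
        exact ⟨fun h => hab h.symm, hn b⟩)
      have ha : w (ρ a) = w' (ρ a) := by
        rw [← h1 a, ← h1' a, h3, h3', h1 b, h1' b, hb]
      ext1 c
      rw [h1 c, h1' c]
      by_cases h4 : ρ c = ρ a
      · rw [h4, ha]
      · refine hagree _ ?_
        simp only [mem_insert, not_or]
        exact ⟨h4, hn c⟩
  have h1 : (univ.filter fun w : κ → ι × Bool => (∀ c, w c = w (ρ c)) ∧
      nrm (vs w) ≠ Fintype.card κ) ⊆ (univ : Finset (κ × κ)).biUnion fun c =>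
        univ.filter fun w : κ → ι × Bool => (∀ c, w c = w (ρ c)) ∧ w c.1 = opp (w c.2) := by
    intro w hw
    simp only [mem_filter, mem_univ, true_and] at hw
    obtain ⟨a, b, hab⟩ := nonreduced hw.2
    rw [mem_biUnion]
    refine ⟨(a, b), mem_univ _, ?_⟩
    simp only [mem_filter, mem_univ, true_and]
    exact ⟨hw.1, hab⟩
  refine (card_le_card h1).trans (card_biUnion_le.trans ?_)
  refine (sum_le_sum fun c _ => hone c.1 c.2).trans (le_of_eq ?_)
  rw [sum_const, card_univ, Fintype.card_prod, smul_eq_mul]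
  ring

theorem ell_ret (ρ : κ → κ) (hρ : ∀ c, ρ (ρ c) = ρ c) (T : Finset κ)
    (hT : ∀ c, c ∈ T ↔ ρ c ≠ c) (w : κ → ι × Bool) (hw : ∀ c, w c = w (ρ c)) :
    ell (vs w) + #T ≤ Fintype.card κ := by
  have hn : ∀ c, ρ c ∉ T := fun c h => (hT _).1 h (hρ c)
  have h1 : ell (vs w) ≤ #(Tᶜ.image fun k => (w k).1) := by
    unfold ell
    refine card_le_card fun i hi => ?_
    simp only [mem_filter, mem_univ, true_and] at hi
    have h2 : ∃ k, (w k).1 = i := by
      by_contra hno
      push Not at hno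
      refine hi ?_
      rw [vs_apply]
      have hz : ∀ b : Bool, cnt w (i, b) = 0 := by
        intro b
        by_contra h5
        unfold cnt at h5
        obtain ⟨k, hk⟩ := card_pos.1 (Nat.pos_of_ne_zero h5)
        simp only [mem_filter, mem_univ, true_and] at hk
        exact hno k (by rw [hk])
      have h3 : cnt w (i, true) = 0 := hz true
      have h4 : cnt w (i, false) = 0 := hz false
      rw [h3, h4]
      simp
    obtain ⟨k, hk⟩ := h2
    rw [mem_image]
    exact ⟨ρ k, by rw [mem_compl]; exact hn k, by rw [← hw k]; exact hk⟩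
  have h2 := card_image_le (s := Tᶜ) (f := fun k => (w k).1)
  rw [card_compl] at h2
  have h3 : #T ≤ Fintype.card κ := card_le_univ T
  omega

/-! ### Continuations of Gd words -/

variable {G : Type} [AddCommGroup G] {s : ℕ} {ev : (ι → ℤ) →+ G}

theorem good_count (p : κ → Prop) (hB : Fintype.card {k // ¬ p k} = s)
    (F : Finset ({k // p k} → ι × Bool)) (r : ({k // p k} → ι × Bool) → (ι → ℤ))
    (hF : ∀ w ∈ F, nrm (r w) = s ∧ ell (r w) = s ∧ ev (vs w - r w) = 0 ∧
      nrm (vs w - r w) = Fintype.card κ)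
    (P : (κ → ι × Bool) → Prop) [DecidablePred P]
    (hP : ∀ z : κ → ι × Bool, (fun a : {k // p k} => z a.1) ∈ F → P z) :
    s ! * #F ≤ #{z ∈ Zr ev κ | P z} := by
  have h1 : s ! * #F ≤ #{z ∈ Zr ev κ | (fun a : {k // p k} => z a.1) ∈ F} := by
    refine mul_card_image_le_card_of_maps_to
      (f := fun z : κ → ι × Bool => fun a : {k // p k} => z a.1) ?_ _ ?_
    · intro z hz
      exact (mem_filter.1 hz).2
    · intro w hw
      obtain ⟨g2, g3, d1, d2⟩ := hF w hw
      have hT := ((Pool.Agent.H59.GC.w ι {k // ¬ p k}).2 (-r w) (by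
        rw [nrm_neg, g2, hB])).2.2.1 (by rw [ell_neg, g3, hB])
      rw [hB] at hT
      rw [← hT]
      refine card_le_card_of_injOn (fun u => fun a : κ =>
        if ha : p a then w ⟨a, ha⟩ else u ⟨a, ha⟩) ?_ ?_
      · intro u hu
        simp only [coe_filter, mem_filter, mem_univ, true_and, Set.mem_ofPred_eq] at hu ⊢
        have e1 : (fun a : {k // p k} =>
            if ha : p a.1 then w ⟨a.1, ha⟩ else u ⟨a.1, ha⟩) = w := by
          ext1 a
          rw [dif_pos a.2]
        have e2 : (fun a : {k // ¬ p k} =>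
            if ha : p a.1 then w ⟨a.1, ha⟩ else u ⟨a.1, ha⟩) = u := by
          ext1 a
          rw [dif_neg a.2]
        refine ⟨⟨?_, ?_⟩, e1⟩
        · simp only [Zr, mem_filter, mem_univ, true_and]
          rw [vs_split _ p, e1, e2, hu, ← sub_eq_add_neg]
          exact ⟨d2, d1⟩
        · rw [e1]
          exact hw
      · intro u hu u' hu' huu
        ext1 a
        have := congrFun huu a.1
        simp only [dif_neg a.2] at this
        exact this
  refine h1.trans (card_le_card fun z hz => ?_)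
  rw [mem_filter] at hz ⊢
  exact ⟨hz.1, hP z hz.2⟩

/-! ### The main estimate -/

theorem hdiff (hPC : PC s ev) {α : Type} [Fintype α] (w : α → ι × Bool) (r : ι → ℤ)
    (hr : nrm r ≤ s ∧ ev r = ev (vs w)) (hw : nrm (vs w) = Fintype.card α)
    (hα : s < Fintype.card α) :
    ev (vs w - r) = 0 ∧ 2 * s + 1 ≤ nrm (vs w - r) ∧
      nrm (vs w - r) ≤ Fintype.card α + nrm r ∧
      Even (nrm (vs w - r) + Fintype.card α + nrm r) := by
  have hne : vs w ≠ r := by
    intro h
    rw [← h, hw] at hr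
    omega
  obtain ⟨h1, h2, h3⟩ := (Pool.Agent.H2.GC.l ι G s ev hPC).2 (vs w) r hne hr.2.symm
  rw [hw] at h2 h3
  exact ⟨by rw [map_sub, hr.2, sub_self], h1, h2, h3⟩

/-- extension of the words of `F` by words of the opposite short vector -/
theorem ext_nw {α : Type} [Fintype α] (F : Finset (α → ι × Bool)) (r : (α → ι × Bool) → (ι → ℤ))
    (n d e : ℕ) (hn : Fintype.card α + n = e)
    (hF : ∀ w ∈ F, nrm (r w) = n ∧ ev (vs w - r w) = 0 ∧ nrm (vs w - r w) = e ∧
      ell (vs w) + ell (r w) + d ≤ e) :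
    #F ≤ #{z ∈ Zr ev (α ⊕ Fin n) | ell (vs z) + d ≤ e} := by
  refine le_of_le_of_eq (ext_bound (ev := ev) (β := Fin n) F (fun z => ell (vs z) + d ≤ e) ?_)
    (congrArg Finset.card (Finset.ext fun z => by simp only [mem_filter]))
  intro w hw
  obtain ⟨h1, h2, h3, h4⟩ := hF w hw
  obtain ⟨u, hu⟩ := ((Pool.Agent.H59.GC.w ι (Fin n)).2 (-r w) (by
    rw [nrm_neg, h1, Fintype.card_fin])).1
  refine ⟨u, ?_, ?_⟩
  · simp only [Zr, mem_filter, mem_univ, true_and]
    rw [vs_sum, hu, ← sub_eq_add_neg, Fintype.card_sum, Fintype.card_fin, hn]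
    exact ⟨h3, h2⟩
  · show ell (vs (Sum.elim w u)) + d ≤ e
    rw [vs_sum, hu]
    have h5 : ell (vs w + -r w) ≤ ell (vs w) + ell (r w) := by
      unfold ell
      refine (card_le_card (t := ({i | vs w i ≠ 0} : Finset ι) ∪ ({i | r w i ≠ 0} : Finset ι))
        fun i hi => ?_).trans (card_union_le _ _)
      simp only [mem_filter, mem_univ, true_and, mem_union] at hi ⊢
      by_contra h
      push Not at h
      refine hi ?_
      rw [Pi.add_apply, Pi.neg_apply, h.1, h.2]
      simp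
    omega

/-- `a - t = s - 1` free letters; `a = s + 1` or `a = s + 2` -/
theorem main_low (hPC : PC s ev) (hs : 6 ≤ s) (C : ℝ)
    (hNW : ∀ (κ : Type) [Fintype κ],
      (Fintype.card κ = 2 * s + 2 → (#{z ∈ Zr ev κ | ell (vs z) + 4 ≤ 2 * s + 2} : ℝ) ≤ C) ∧
      (Fintype.card κ = 2 * s + 1 → (#{z ∈ Zr ev κ | ell (vs z) + 3 ≤ 2 * s + 1} : ℝ) ≤ C))
    (p : κ → Prop) (hB : Fintype.card {k // ¬ p k} = s)
    (ρ : {k // p k} → {k // p k}) (hρ : ∀ c, ρ (ρ c) = ρ c) (T : Finset {k // p k})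
    (hT : ∀ c, c ∈ T ↔ ρ c ≠ c)
    (hcase : (Fintype.card {k // p k} = s + 1 ∧ #T = 2 ∧ Fintype.card κ = 2 * s + 1) ∨
      (Fintype.card {k // p k} = s + 2 ∧ #T = 3 ∧ Fintype.card κ = 2 * s + 2))
    (P : (κ → ι × Bool) → Prop) [DecidablePred P]
    (hP : ∀ z : κ → ι × Bool, (∀ c : {k // p k}, z c.1 = z (ρ c).1) → P z) :
    (s ! : ℝ) * (Fintype.card (ι × Bool) : ℝ) ^ (s - 1) ≤
      (#{z ∈ Zr ev κ | P z} : ℝ) +
        s ! * ((s + 2) ^ 2 * (Fintype.card (ι × Bool) : ℝ) ^ (s - 2) + 2 * C) := by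
  have hC0 : 0 ≤ C := by
    have h := (hNW (Fin (2 * s + 2))).1 (by simp)
    refine le_trans ?_ h
    positivity
  obtain ⟨r, hr⟩ : ∃ r : ({k // p k} → ι × Bool) → (ι → ℤ), ∀ w, nrm (r w) ≤ s ∧
      ev (r w) = ev (vs w) := by
    choose r hr using fun w : {k // p k} → ι × Bool => (hPC (ev (vs w))).exists
    exact ⟨r, hr⟩
  set N := Fintype.card (ι × Bool) with hN
  set a := Fintype.card {k // p k} with ha
  set W : Finset ({k // p k} → ι × Bool) := univ.filter fun w => ∀ c, w c = w (ρ c) with hW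
  have hWc : N ^ (s - 1) ≤ #W := by
    have h := card_ret_ge (D := ι × Bool) ρ hρ T hT
    have e : a - #T = s - 1 := by omega
    rw [← ha, e] at h
    refine h.trans (le_of_eq ?_)
    rw [hW]
    exact congrArg Finset.card (Finset.ext fun z => by
      simp only [mem_filter, mem_univ, true_and])
  set Gd := W.filter fun w => nrm (vs w) = a ∧ nrm (r w) = s ∧ ell (r w) = s with hGd
  set B1 := W.filter fun w => nrm (vs w) ≠ a with hB1
  set B2 := W.filter fun w => nrm (vs w) = a ∧ nrm (r w) ≠ s with hB2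
  set B3 := W.filter fun w => nrm (vs w) = a ∧ nrm (r w) = s ∧ ell (r w) ≠ s with hB3
  have hcover : #W ≤ #Gd + (#B1 + (#B2 + #B3)) := by
    have h1 : W ⊆ Gd ∪ (B1 ∪ (B2 ∪ B3)) := by
      intro w hw
      simp only [hGd, hB1, hB2, hB3, mem_union, mem_filter]
      by_cases a1 : nrm (vs w) = a
      · by_cases a2 : nrm (r w) = s
        · by_cases a3 : ell (r w) = s
          · exact Or.inl ⟨hw, a1, a2, a3⟩
          · exact Or.inr (Or.inr (Or.inr ⟨hw, a1, a2, a3⟩))
        · exact Or.inr (Or.inr (Or.inl ⟨hw, a1, a2⟩))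
      · exact Or.inr (Or.inl ⟨hw, a1⟩)
    refine (card_le_card h1).trans ((card_union_le _ _).trans ?_)
    refine Nat.add_le_add_left ((card_union_le _ _).trans ?_) _
    exact Nat.add_le_add_left (card_union_le _ _) _
  have hdf : ∀ w : {k // p k} → ι × Bool, nrm (vs w) = a →
      ev (vs w - r w) = 0 ∧ 2 * s + 1 ≤ nrm (vs w - r w) ∧
      nrm (vs w - r w) ≤ a + nrm (r w) ∧ Even (nrm (vs w - r w) + a + nrm (r w)) :=
    fun w hw => hdiff hPC w (r w) (hr w) hw (by omega)
  have hell : ∀ w ∈ W, ell (vs w) + #T ≤ a := by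
    intro w hw
    rw [hW, mem_filter] at hw
    exact ell_ret ρ hρ T hT w hw.2
  -- B1
  have hb1 : #B1 ≤ (s + 2) ^ 2 * N ^ (s - 2) := by
    have h := card_nonred_ret (ι := ι) ρ hρ T hT
    have e : a - (#T + 1) = s - 2 := by omega
    rw [← ha, e] at h
    have h' : #B1 ≤ a ^ 2 * N ^ (s - 2) := by
      refine le_trans (card_le_card ?_) h
      intro w hw
      simp only [hB1, hW, mem_filter, mem_univ, true_and] at hw ⊢
      exact hw
    refine h'.trans (Nat.mul_le_mul_right _ (Nat.pow_le_pow_left ?_ 2))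
    omega
  -- B2
  have hb2 : (#B2 : ℝ) ≤ C := by
    by_cases h1 : a = s + 1
    · -- empty
      have h2 : B2 = ∅ := by
        rw [hB2, filter_eq_empty_iff]
        intro w hw hh
        obtain ⟨d1, d2, d3, d4⟩ := hdf w hh.1
        have := (hr w).1
        omega
      rw [h2, card_empty]
      exact_mod_cast hC0
    · have h2 : a = s + 2 ∧ #T = 3 := by omega
      have h3 : #B2 ≤ #{z ∈ Zr ev ({k // p k} ⊕ Fin (s - 1)) | ell (vs z) + 3 ≤ 2 * s + 1} := by
        refine ext_nw B2 r (s - 1) 3 (2 * s + 1) (by omega) ?_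
        intro w hw
        rw [hB2, mem_filter] at hw
        obtain ⟨hwW, hw1, hw2⟩ := hw
        obtain ⟨d1, d2, d3, d4⟩ := hdf w hw1
        have hle := (hr w).1
        have hl := hell w hwW
        have hl2 := ell_le_nrm (r w)
        refine ⟨by omega, d1, by omega, by omega⟩
      refine le_trans ?_ ((hNW ({k // p k} ⊕ Fin (s - 1))).2 (by
        rw [Fintype.card_sum, Fintype.card_fin]
        omega))
      exact_mod_cast h3
  -- B3
  have hb3 : (#B3 : ℝ) ≤ C := by
    by_cases h1 : a = s + 1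
    · have h2 : #T = 2 := by omega
      have h3 : #B3 ≤ #{z ∈ Zr ev ({k // p k} ⊕ Fin s) | ell (vs z) + 3 ≤ 2 * s + 1} := by
        refine ext_nw B3 r s 3 (2 * s + 1) (by omega) ?_
        intro w hw
        rw [hB3, mem_filter] at hw
        obtain ⟨hwW, hw1, hw2, hw3⟩ := hw
        obtain ⟨d1, d2, d3, d4⟩ := hdf w hw1
        have hl := hell w hwW
        have hl2 := ell_le_nrm (r w)
        refine ⟨by omega, d1, by omega, by omega⟩
      refine le_trans ?_ ((hNW ({k // p k} ⊕ Fin s)).2 (by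
        rw [Fintype.card_sum, Fintype.card_fin]
        omega))
      exact_mod_cast h3
    · have h2 : a = s + 2 ∧ #T = 3 := by omega
      have h3 : #B3 ≤ #{z ∈ Zr ev ({k // p k} ⊕ Fin s) | ell (vs z) + 4 ≤ 2 * s + 2} := by
        refine ext_nw B3 r s 4 (2 * s + 2) (by omega) ?_
        intro w hw
        rw [hB3, mem_filter] at hw
        obtain ⟨hwW, hw1, hw2, hw3⟩ := hw
        obtain ⟨d1, d2, d3, ⟨e, he⟩⟩ := hdf w hw1
        have hl := hell w hwW
        have hl2 := ell_le_nrm (r w)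
        refine ⟨by omega, d1, by omega, by omega⟩
      refine le_trans ?_ ((hNW ({k // p k} ⊕ Fin s)).1 (by
        rw [Fintype.card_sum, Fintype.card_fin]
        omega))
      exact_mod_cast h3
  -- Gd words
  have hg : s ! * #Gd ≤ #{z ∈ Zr ev κ | P z} := by
    refine good_count p hB Gd r ?_ P ?_
    · intro w hw
      rw [hGd, mem_filter] at hw
      obtain ⟨hwW, hw1, hw2, hw3⟩ := hw
      obtain ⟨d1, d2, d3, ⟨e, he⟩⟩ := hdf w hw1
      exact ⟨hw2, hw3, d1, by omega⟩
    · intro z hz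
      rw [hGd, mem_filter] at hz
      have h1 := hz.1
      rw [hW, mem_filter] at h1
      exact hP z h1.2
  have hsum : (N : ℝ) ^ (s - 1) ≤ #Gd + ((s + 2) ^ 2 * (N : ℝ) ^ (s - 2) + 2 * C) := by
    have h1 : (N : ℝ) ^ (s - 1) ≤ (#W : ℝ) := by exact_mod_cast hWc
    have h2 : (#W : ℝ) ≤ (#Gd : ℝ) + ((#B1 : ℝ) + ((#B2 : ℝ) + (#B3 : ℝ))) := by
      exact_mod_cast hcover
    have h3 : (#B1 : ℝ) ≤ (s + 2) ^ 2 * (N : ℝ) ^ (s - 2) := by exact_mod_cast hb1
    linarith
  have hf0 : (0 : ℝ) ≤ (s ! : ℝ) := by positivity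
  calc (s ! : ℝ) * (N : ℝ) ^ (s - 1)
      ≤ s ! * (#Gd + ((s + 2) ^ 2 * (N : ℝ) ^ (s - 2) + 2 * C)) :=
        mul_le_mul_of_nonneg_left hsum hf0
    _ = (s ! * #Gd : ℝ) + s ! * ((s + 2) ^ 2 * (N : ℝ) ^ (s - 2) + 2 * C) := by ring
    _ ≤ _ := by
        have h4 : (s ! * #Gd : ℝ) ≤ (#{z ∈ Zr ev κ | P z} : ℝ) := by exact_mod_cast hg
        linarith

/-- module ZL -/
theorem zl (hNW : T_NW) : T_ZL := by
  intro s hs
  obtain ⟨C, hC⟩ := hNW s hs
  refine ⟨s ! * ((s + 2) ^ 2 * 2 ^ (s - 2) + 2 * |C|), ?_⟩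
  intro ι _ G _ ev hPC hm κ _
  have hM : (0 : ℝ) ≤ (Fintype.card ι : ℝ) ^ (s - 2) := by positivity
  have hD : (Fintype.card (ι × Bool) : ℝ) = 2 * (Fintype.card ι : ℝ) := by
    rw [Fintype.card_prod, Fintype.card_bool]
    push_cast
    ring
  have hNW' : ∀ (κ : Type) [Fintype κ],
      (Fintype.card κ = 2 * s + 2 → (#{z ∈ Zr ev κ | ell (vs z) + 4 ≤ 2 * s + 2} : ℝ) ≤
        |C| * (Fintype.card ι : ℝ) ^ (s - 2)) ∧
      (Fintype.card κ = 2 * s + 1 → (#{z ∈ Zr ev κ | ell (vs z) + 3 ≤ 2 * s + 1} : ℝ) ≤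
        |C| * (Fintype.card ι : ℝ) ^ (s - 2)) := by
    intro κ _
    obtain ⟨h1, h2⟩ := hC ι G ev hPC hm κ
    exact ⟨fun h => (h1 h).trans (mul_le_mul_of_nonneg_right (le_abs_self _) hM),
      fun h => (h2 h).trans (mul_le_mul_of_nonneg_right (le_abs_self _) hM)⟩
  have hfin : ∀ n : ℝ, (s ! : ℝ) * (Fintype.card (ι × Bool) : ℝ) ^ (s - 1) ≤
      n + s ! * ((s + 2) ^ 2 * (Fintype.card (ι × Bool) : ℝ) ^ (s - 2) +
        2 * (|C| * (Fintype.card ι : ℝ) ^ (s - 2))) →
      s ! * (2 * Fintype.card ι : ℝ) ^ (s - 1) -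
        s ! * ((s + 2) ^ 2 * 2 ^ (s - 2) + 2 * |C|) * (Fintype.card ι : ℝ) ^ (s - 2) ≤ n := by
    intro n hn
    rw [hD] at hn
    have e : (2 * (Fintype.card ι : ℝ)) ^ (s - 2) = 2 ^ (s - 2) * (Fintype.card ι : ℝ) ^ (s - 2) :=
      mul_pow _ _ _
    rw [e] at hn
    linarith
  constructor
  · intro hκ i j k l hn
    have hS : #({i, j, k, l} : Finset κ) ≤ 4 := card_le_four
    obtain ⟨A, hSA, -, hA⟩ := exists_subsuperset_card_eq (subset_univ ({i, j, k, l} : Finset κ))
      (show #({i, j, k, l} : Finset κ) ≤ s + 1 by omega) (by rw [card_univ]; omega)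
    obtain ⟨p, hp⟩ : ∃ p : κ → Prop, ∀ k, p k ↔ k ∈ A := ⟨_, fun _ => Iff.rfl⟩
    have hcA : Fintype.card {k // p k} = s + 1 := by
      rw [← hA, Fintype.card_subtype]
      congr 1
      ext k
      simp [hp]
    have hcB : Fintype.card {k // ¬ p k} = s := by
      rw [Fintype.card_subtype_compl, hcA]
      omega
    have hpi : p i := (hp i).2 (hSA (by simp))
    have hpj : p j := (hp j).2 (hSA (by simp))
    have hpk : p k := (hp k).2 (hSA (by simp))
    have hpl : p l := (hp l).2 (hSA (by simp))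
    simp only [List.nodup_cons, List.mem_cons, List.not_mem_nil, or_false, not_or] at hn
    obtain ⟨⟨hij, hik, hil⟩, ⟨hjk, hjl⟩, hkl, -⟩ := hn
    obtain ⟨ρ, hρ⟩ : ∃ ρ : {k // p k} → {k // p k}, ∀ c, ρ c =
        if c.1 = j then ⟨i, hpi⟩ else if c.1 = l then ⟨k, hpk⟩ else c := ⟨_, fun _ => rfl⟩
    refine hfin _ (main_low hPC hs _ hNW' p hcB ρ ?_ {⟨j, hpj⟩, ⟨l, hpl⟩} ?_
      (Or.inl ⟨hcA, ?_, hκ⟩) _ ?_)
    · intro c
      by_cases h1 : c.1 = j
      · rw [hρ c, if_pos h1, hρ, if_neg hij, if_neg hil]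
      · by_cases h2 : c.1 = l
        · rw [hρ c, if_neg h1, if_pos h2, hρ, if_neg (Ne.symm hjk), if_neg hkl]
        · rw [hρ c, if_neg h1, if_neg h2, hρ, if_neg h1, if_neg h2]
    · intro c
      rw [mem_insert, mem_singleton, hρ c]
      by_cases h1 : c.1 = j
      · rw [if_pos h1]
        refine ⟨fun _ h => ?_, fun _ => Or.inl (Subtype.ext h1)⟩
        rw [← h] at h1
        exact hij h1
      · by_cases h2 : c.1 = l
        · rw [if_neg h1, if_pos h2]
          refine ⟨fun _ h => ?_, fun _ => Or.inr (Subtype.ext h2)⟩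
          rw [← h] at h2
          exact hkl h2
        · rw [if_neg h1, if_neg h2]
          refine ⟨?_, fun h => absurd rfl h⟩
          rintro (h | h)
          · exact absurd (congrArg Subtype.val h) h1
          · exact absurd (congrArg Subtype.val h) h2
    · refine card_pair ?_
      intro h
      exact hjl (congrArg Subtype.val h)
    · intro z hz
      have h1 := hz ⟨j, hpj⟩
      have h2 := hz ⟨l, hpl⟩
      rw [hρ, if_pos rfl] at h1
      rw [hρ, if_neg (Ne.symm hjl), if_pos rfl] at h2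
      exact ⟨h1.symm, h2.symm⟩
  · intro hκ i j k l u v hn
    have hS : #({i, j, k, l, u, v} : Finset κ) ≤ 6 := card_le_six
    obtain ⟨A, hSA, -, hA⟩ := exists_subsuperset_card_eq
      (subset_univ ({i, j, k, l, u, v} : Finset κ))
      (show #({i, j, k, l, u, v} : Finset κ) ≤ s + 2 by omega) (by rw [card_univ]; omega)
    obtain ⟨p, hp⟩ : ∃ p : κ → Prop, ∀ k, p k ↔ k ∈ A := ⟨_, fun _ => Iff.rfl⟩
    have hcA : Fintype.card {k // p k} = s + 2 := by
      rw [← hA, Fintype.card_subtype]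
      congr 1
      ext k
      simp [hp]
    have hcB : Fintype.card {k // ¬ p k} = s := by
      rw [Fintype.card_subtype_compl, hcA]
      omega
    have hpi : p i := (hp i).2 (hSA (by simp))
    have hpj : p j := (hp j).2 (hSA (by simp))
    have hpk : p k := (hp k).2 (hSA (by simp))
    have hpl : p l := (hp l).2 (hSA (by simp))
    have hpu : p u := (hp u).2 (hSA (by simp))
    have hpv : p v := (hp v).2 (hSA (by simp))
    simp only [List.nodup_cons, List.mem_cons, List.not_mem_nil, or_false, not_or] at hn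
    obtain ⟨⟨hij, hik, hil, hiu, hiv⟩, ⟨hjk, hjl, hju, hjv⟩, ⟨hkl, hku, hkv⟩, ⟨hlu, hlv⟩,
      huv, -⟩ := hn
    obtain ⟨ρ, hρ⟩ : ∃ ρ : {k // p k} → {k // p k}, ∀ c, ρ c =
        if c.1 = j then ⟨i, hpi⟩ else if c.1 = l then ⟨k, hpk⟩ else
          if c.1 = v then ⟨u, hpu⟩ else c := ⟨_, fun _ => rfl⟩
    refine hfin _ (main_low hPC hs _ hNW' p hcB ρ ?_ {⟨j, hpj⟩, ⟨l, hpl⟩, ⟨v, hpv⟩} ?_
      (Or.inr ⟨hcA, ?_, hκ⟩) _ ?_)
    · intro c
      by_cases h1 : c.1 = j
      · rw [hρ c, if_pos h1, hρ, if_neg hij, if_neg hil, if_neg hiv]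
      · by_cases h2 : c.1 = l
        · rw [hρ c, if_neg h1, if_pos h2, hρ, if_neg (Ne.symm hjk), if_neg hkl, if_neg hkv]
        · by_cases h3 : c.1 = v
          · rw [hρ c, if_neg h1, if_neg h2, if_pos h3, hρ, if_neg (Ne.symm hju),
              if_neg (Ne.symm hlu), if_neg huv]
          · rw [hρ c, if_neg h1, if_neg h2, if_neg h3, hρ, if_neg h1, if_neg h2, if_neg h3]
    · intro c
      rw [mem_insert, mem_insert, mem_singleton, hρ c]
      by_cases h1 : c.1 = j
      · rw [if_pos h1]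
        refine ⟨fun _ h => ?_, fun _ => Or.inl (Subtype.ext h1)⟩
        rw [← h] at h1
        exact hij h1
      · by_cases h2 : c.1 = l
        · rw [if_neg h1, if_pos h2]
          refine ⟨fun _ h => ?_, fun _ => Or.inr (Or.inl (Subtype.ext h2))⟩
          rw [← h] at h2
          exact hkl h2
        · by_cases h3 : c.1 = v
          · rw [if_neg h1, if_neg h2, if_pos h3]
            refine ⟨fun _ h => ?_, fun _ => Or.inr (Or.inr (Subtype.ext h3))⟩
            rw [← h] at h3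
            exact huv h3
          · rw [if_neg h1, if_neg h2, if_neg h3]
            refine ⟨?_, fun h => absurd rfl h⟩
            rintro (h | h | h)
            · exact absurd (congrArg Subtype.val h) h1
            · exact absurd (congrArg Subtype.val h) h2
            · exact absurd (congrArg Subtype.val h) h3
    · refine card_eq_three.2 ⟨_, _, _, ?_, ?_, ?_, rfl⟩
      · intro h
        exact hjl (congrArg Subtype.val h)
      · intro h
        exact hjv (congrArg Subtype.val h)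
      · intro h
        exact hlv (congrArg Subtype.val h)
    · intro z hz
      have h1 := hz ⟨j, hpj⟩
      have h2 := hz ⟨l, hpl⟩
      have h3 := hz ⟨v, hpv⟩
      rw [hρ, if_pos rfl] at h1
      rw [hρ, if_neg (Ne.symm hjl), if_pos rfl] at h2
      rw [hρ, if_neg (Ne.symm hjv), if_neg (Ne.symm hlv), if_pos rfl] at h3
      exact ⟨h1.symm, h2.symm, h3.symm⟩

end Pool.Agent.H19.GC
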